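import Mathlib

/-!
# Total domination and total dominator colourings (definitions)
-/

namespace Helper29TD

open SimpleGraph

variable {V : Type*}

/-- `S` is a total dominating set of `G`: every vertex has a neighbour in `S`. -/
def IsTotalDominating (G : SimpleGraph V) (S : Finset V) : Prop :=
  ∀ v, ∃ s ∈ S, G.Adj v s

/-- The total domination number `γ_t(G)`. -/
noncomputable def totalDominationNumber (G : SimpleGraph V) : ℕ :=
  sInf {k | ∃ S : Finset V, IsTotalDominating G S ∧ S.card = k}

/-- A total dominator colouring with (at most) `k` colours: a proper colouring in which every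
vertex is adjacent to all the vertices of at least one (nonempty) colour class. -/
def IsTotalDominatorColouring (G : SimpleGraph V) {k : ℕ} (c : V → Fin k) : Prop :=
  (∀ v w, G.Adj v w → c v ≠ c w) ∧
    ∀ v, ∃ i, (∃ w, c w = i) ∧ ∀ w, c w = i → G.Adj v w

/-- The total dominator chromatic number `χ_td(G)`. -/
noncomputable def totalDominatorChromaticNumber (G : SimpleGraph V) : ℕ :=
  sInf {k | ∃ c : V → Fin k, IsTotalDominatorColouring G c}

/-- `u` has no neighbour in `A`. -/
def Unserved (G : SimpleGraph V) (A : Finset V) (u : V) : Prop := ∀ a ∈ A, ¬ G.Adj u a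

/-- `v` belongs to `A` or is adjacent to a vertex that has no neighbour in `A`. -/
def Covered (G : SimpleGraph V) (A : Finset V) (v : V) : Prop :=
  v ∈ A ∨ ∃ u, G.Adj v u ∧ Unserved G A u

/-- A *good labelling* of `G`: a pair `(A, Q)` of sets of vertices satisfying four local rules.
Call a vertex *unserved* if it has no neighbour in `A`. -/
structure GoodLabelling (G : SimpleGraph V) (A Q : Finset V) : Prop where
  /-- every vertex of `A` has exactly one neighbour in `Q` -/
  a_rule : ∀ a ∈ A, ∃! q, q ∈ Q ∧ G.Adj a q
  /-- every vertex of `Q` has exactly one neighbour in `A` -/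
  q_rule : ∀ q ∈ Q, ∃! a, a ∈ A ∧ G.Adj q a
  /-- every vertex has at most one neighbour that is in `Q` or unserved -/
  packing : ∀ v p p', G.Adj v p → G.Adj v p' → (p ∈ Q ∨ Unserved G A p) →
    (p' ∈ Q ∨ Unserved G A p') → p = p'
  /-- of any two adjacent vertices at least one is in `A` or adjacent to an unserved vertex -/
  edge_rule : ∀ v w, G.Adj v w → Covered G A v ∨ Covered G A w

end Helper29TD
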