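import Pool.Agent.Lib_helper29.TD.Tree

namespace Helper29TD

open SimpleGraph

variable {V : Type*} {T : SimpleGraph V} [Fintype V]

omit [Fintype V] in
theorem tdn_le {S : Finset V} (h : IsTotalDominating T S) : totalDominationNumber T ≤ S.card :=
  Nat.sInf_le ⟨S, h, rfl⟩

theorem exists_min (hT : T.IsTree) (h2 : 2 ≤ Fintype.card V) :
    ∃ S : Finset V, IsTotalDominating T S ∧ S.card = totalDominationNumber T := by
  have hne : {k | ∃ S : Finset V, IsTotalDominating T S ∧ S.card = k}.Nonempty := by
    refine ⟨_, Finset.univ, fun v => ?_, rfl⟩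
    obtain ⟨w, hw⟩ := exists_nbr hT h2 v
    exact ⟨w, Finset.mem_univ _, hw⟩
  exact Nat.sInf_mem hne

omit [Fintype V] in
theorem packing_le {S P : Finset V} (hS : IsTotalDominating T S) (hP : IsPacking T P) :
    P.card ≤ S.card := by
  choose f hf hf' using hS
  refine Finset.card_le_card_of_injOn f (fun p _ => hf p) ?_
  intro p hp q hq hpq
  have h1 := hf' p
  have h2 := hf' q
  exact hP (f p) p hp q hq h1.symm (by rw [hpq]; exact h2.symm)

theorem exists_packing (hT : T.IsTree) (h2 : 2 ≤ Fintype.card V) :
    ∃ P : Finset V, IsPacking T P ∧ P.card = totalDominationNumber T := by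
  classical
  obtain ⟨r⟩ := hT.connected.nonempty
  obtain ⟨S, P, h1, -, hP, hc⟩ := greedy hT h2 r _ Finset.univ rfl
  have hS : IsTotalDominating T S := fun v => h1 v (Finset.mem_univ _)
  refine ⟨P, hP, le_antisymm ?_ ((tdn_le hS).trans hc)⟩
  obtain ⟨S', hS', hc'⟩ := exists_min hT h2
  rw [← hc']
  exact packing_le hS' hP

/-- the set of unserved vertices -/
noncomputable def uset (T : SimpleGraph V) (A : Finset V) : Finset V := by
  classical exact Finset.univ.filter (Unserved T A)

theorem mem_uset {A : Finset V} {u : V} : u ∈ uset T A ↔ Unserved T A u := by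
  classical
  simp [uset]

theorem cost_ge (hT : T.IsTree) (h2 : 2 ≤ Fintype.card V) (A : Finset V) :
    totalDominationNumber T ≤ A.card + (uset T A).card := by
  classical
  choose f hf using exists_nbr hT h2
  have hS : IsTotalDominating T (A ∪ (uset T A).image f) := by
    intro v
    by_cases hv : Unserved T A v
    · exact ⟨f v, Finset.mem_union_right _ (Finset.mem_image_of_mem _ (mem_uset.2 hv)), hf v⟩
    · unfold Unserved at hv
      push Not at hv
      obtain ⟨a, ha, ha'⟩ := hv
      exact ⟨a, Finset.mem_union_left _ ha, ha'⟩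
  refine (tdn_le hS).trans ((Finset.card_union_le _ _).trans ?_)
  exact Nat.add_le_add_left Finset.card_image_le _

omit [Fintype V] in
/-- upper bounds for the total dominator chromatic number from colourings in any finite type -/
theorem chi_le {C : Type*} [Fintype C] (c : V → C) (h1 : ∀ v w, T.Adj v w → c v ≠ c w)
    (h2 : ∀ v, ∃ i, (∃ w, c w = i) ∧ ∀ w, c w = i → T.Adj v w) :
    totalDominatorChromaticNumber T ≤ Fintype.card C := by
  refine Nat.sInf_le ⟨fun v => Fintype.equivFin C (c v), ?_, ?_⟩
  · intro v w h h'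
    exact h1 v w h ((Fintype.equivFin C).injective h')
  · intro v
    obtain ⟨i, ⟨w, hw⟩, hi⟩ := h2 v
    refine ⟨Fintype.equivFin C i, ⟨w, congrArg _ hw⟩, fun w hw => hi w ?_⟩
    exact (Fintype.equivFin C).injective hw

theorem chi_le_add_two (hT : T.IsTree) (h2 : 2 ≤ Fintype.card V) :
    totalDominatorChromaticNumber T ≤ totalDominationNumber T + 2 := by
  classical
  obtain ⟨S, hS, hc⟩ := exists_min hT h2
  have hcard : Fintype.card (S ⊕ Fin 2) = totalDominationNumber T + 2 := by
    simp [hc]
  rw [← hcard]
  refine chi_le (fun v => if h : v ∈ S then (Sum.inl ⟨v, h⟩ : S ⊕ Fin 2)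
    else Sum.inr (hT.coloringTwo v)) ?_ ?_
  · intro v w hvw
    by_cases hv : v ∈ S <;> by_cases hw : w ∈ S <;> simp only [hv, hw, dite_true, dite_false]
    · intro h
      have : v = w := by simpa using h
      exact hvw.ne this
    · simp
    · simp
    · intro h
      have h' : hT.coloringTwo v = hT.coloringTwo w := by simpa using h
      exact (hT.coloringTwo.valid hvw) h'
  · intro v
    obtain ⟨s, hs, hvs⟩ := hS v
    refine ⟨Sum.inl ⟨s, hs⟩, ⟨s, by simp [hs]⟩, fun w hw => ?_⟩
    by_cases h : w ∈ S
    · simp only [h, dite_true, Sum.inl.injEq, Subtype.mk.injEq] at hw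
      rw [hw]; exact hvs
    · simp [h] at hw

theorem good_chi (hT : T.IsTree) (h2 : 2 ≤ Fintype.card V) {A Q : Finset V}
    (h : GoodLabelling T A Q) :
    totalDominatorChromaticNumber T ≤ totalDominationNumber T + 1 := by
  classical
  -- `Q ∪ U` is an open packing with `|A| + |U|` elements
  have hdisj : Disjoint Q (uset T A) := by
    rw [Finset.disjoint_left]
    intro q hq hqu
    obtain ⟨a, ⟨ha, ha'⟩, -⟩ := h.q_rule q hq
    exact mem_uset.1 hqu a ha ha'
  have hpack : IsPacking T (Q ∪ uset T A) := by
    intro v p hp p' hp' hvp hvp'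
    rw [Finset.mem_union, mem_uset] at hp hp'
    exact h.packing v p p' hvp hvp' hp hp'
  have hAQ : A.card ≤ Q.card := by
    have hex : ∀ a ∈ A, ∃ q, q ∈ Q ∧ T.Adj a q := fun a ha => (h.a_rule a ha).exists
    choose! g hg hg' using hex
    refine Finset.card_le_card_of_injOn g (fun a ha => hg a ha) ?_
    intro a ha b hb hab
    obtain ⟨c, -, hc⟩ := h.q_rule (g a) (hg a ha)
    have e1 := hc a ⟨ha, (hg' a ha).symm⟩
    have e2 := hc b ⟨hb, by rw [hab]; exact (hg' b hb).symm⟩
    rw [e1, e2]
  obtain ⟨S, hS, hc⟩ := exists_min hT h2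
  have hle : A.card + (uset T A).card ≤ totalDominationNumber T := by
    rw [← hc]
    refine le_trans ?_ (packing_le hS hpack)
    rw [Finset.card_union_of_disjoint hdisj]
    omega
  have hcard : Fintype.card (Option (A ⊕ uset T A)) = A.card + (uset T A).card + 1 := by
    simp
  refine le_trans ?_ (show A.card + (uset T A).card + 1 ≤ _ by omega)
  rw [← hcard]
  let c : V → Option (A ⊕ uset T A) := fun v =>
    if hv : v ∈ A then some (Sum.inl ⟨v, hv⟩)
    else if hu : ∃ u, u ∈ uset T A ∧ T.Adj v u then some (Sum.inr ⟨hu.choose, hu.choose_spec.1⟩)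
    else none
  have cA : ∀ v (hv : v ∈ A), c v = some (Sum.inl ⟨v, hv⟩) := fun v hv => by
    simp only [c, hv, dite_true]
  have cU : ∀ v u (hu : u ∈ uset T A), T.Adj v u → c v = some (Sum.inr ⟨u, hu⟩) := by
    intro v u hu hvu
    have hv : v ∉ A := fun hv => mem_uset.1 hu v hv hvu.symm
    have hex : ∃ u, u ∈ uset T A ∧ T.Adj v u := ⟨u, hu, hvu⟩
    simp only [c, hv, dite_false, hex, dite_true, Option.some.injEq, Sum.inr.injEq,
      Subtype.mk.injEq]
    exact h.packing v _ _ hex.choose_spec.2 hvu (Or.inr (mem_uset.1 hex.choose_spec.1))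
      (Or.inr (mem_uset.1 hu))
  have cN : ∀ v, v ∉ A → (¬ ∃ u, u ∈ uset T A ∧ T.Adj v u) → c v = none := by
    intro v h1 h2
    simp only [c, h1, h2, dite_false]
  have inv : ∀ v i, c v = some i → (∃ hv : v ∈ A, i = Sum.inl ⟨v, hv⟩) ∨
      ∃ u, ∃ hu : u ∈ uset T A, T.Adj v u ∧ i = Sum.inr ⟨u, hu⟩ := by
    intro v i hi
    by_cases hv : v ∈ A
    · rw [cA v hv] at hi
      exact Or.inl ⟨hv, (Option.some.inj hi).symm⟩
    · by_cases hu : ∃ u, u ∈ uset T A ∧ T.Adj v u
      · obtain ⟨u, hu, hvu⟩ := hu
        rw [cU v u hu hvu] at hi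
        exact Or.inr ⟨u, hu, hvu, (Option.some.inj hi).symm⟩
      · rw [cN v hv hu] at hi
        cases hi
  refine chi_le c ?_ ?_
  · intro v w hvw hc
    rcases hcv : c v with _ | i
    · have hcw : c w = none := by rw [← hc, hcv]
      rcases h.edge_rule v w hvw with hcov | hcov
      · rcases hcov with hv | ⟨u, hu, hu'⟩
        · rw [cA v hv] at hcv; cases hcv
        · rw [cU v u (mem_uset.2 hu') hu] at hcv; cases hcv
      · rcases hcov with hv | ⟨u, hu, hu'⟩
        · rw [cA w hv] at hcw; cases hcw
        · rw [cU w u (mem_uset.2 hu') hu] at hcw; cases hcw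
    · have hcw : c w = some i := by rw [← hc, hcv]
      rcases inv v i hcv with ⟨hv, hi⟩ | ⟨u, hu, hvu, hi⟩
      · rcases inv w i hcw with ⟨hw, hi'⟩ | ⟨u', hu', hwu', hi'⟩
        · have : v = w := by
            rw [hi] at hi'
            simpa using hi'
          exact hvw.ne this
        · rw [hi] at hi'
          cases hi'
      · rcases inv w i hcw with ⟨hw, hi'⟩ | ⟨u', hu', hwu', hi'⟩
        · rw [hi] at hi'
          cases hi'
        · have : u = u' := by
            rw [hi] at hi'
            simpa using hi'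
          subst this
          exact no_triangle hT hvu.symm hwu'.symm hvw
  · intro v
    by_cases hv : Unserved T A v
    · obtain ⟨w, hw⟩ := exists_nbr hT h2 v
      refine ⟨some (Sum.inr ⟨v, mem_uset.2 hv⟩), ⟨w, cU w v _ hw.symm⟩, fun x hx => ?_⟩
      rcases inv x _ hx with ⟨hx', hi⟩ | ⟨u, hu, hxu, hi⟩
      · cases hi
      · have : v = u := by simpa using hi
        rw [this]
        exact hxu.symm
    · unfold Unserved at hv
      push Not at hv
      obtain ⟨a, ha, hva⟩ := hv
      refine ⟨some (Sum.inl ⟨a, ha⟩), ⟨a, cA a ha⟩, fun x hx => ?_⟩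
      rcases inv x _ hx with ⟨hx', hi⟩ | ⟨u, hu, hxu, hi⟩
      · have : a = x := by simpa using hi
        rw [← this]
        exact hva
      · cases hi

/-- From a cheap set `A` to a good labelling. -/
theorem good_of_cost (hT : T.IsTree) (h2 : 2 ≤ Fintype.card V) {A : Finset V}
    (hA : A.card + (uset T A).card = totalDominationNumber T)
    (hE : ∀ v w, T.Adj v w → Covered T A v ∨ Covered T A w) :
    ∃ A Q : Finset V, GoodLabelling T A Q := by
  classical
  obtain ⟨P, hP, hPc⟩ := exists_packing hT h2
  -- every `p ∈ P` is assigned `a ∈ A ∩ N(p)` or itself if unserved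
  have hex : ∀ p : V, ∃ i : A ⊕ uset T A, (∀ a, i = Sum.inl a → T.Adj p a) ∧
      (∀ u, i = Sum.inr u → (u : V) = p) := by
    intro p
    by_cases hp : Unserved T A p
    · exact ⟨Sum.inr ⟨p, mem_uset.2 hp⟩, by simp, by
        intro u hu
        have := Sum.inr.inj hu
        rw [← this]⟩
    · unfold Unserved at hp
      push Not at hp
      obtain ⟨a, ha, hpa⟩ := hp
      refine ⟨Sum.inl ⟨a, ha⟩, ?_, by simp⟩
      intro b hb
      have := Sum.inl.inj hb
      rw [← this]
      exact hpa
  choose f hf1 hf2 using hex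
  have hinj : Set.InjOn f (P : Set V) := by
    intro p hp q hq hpq
    rcases hfp : f p with a | u
    · have e1 := hf1 p a hfp
      have e2 := hf1 q a (by rw [← hpq, hfp])
      exact hP a p hp q hq e1.symm e2.symm
    · have e1 := hf2 p u hfp
      have e2 := hf2 q u (by rw [← hpq, hfp])
      rw [← e1, ← e2]
  have himg : P.image f = Finset.univ := by
    rw [← Finset.card_eq_iff_eq_univ, Finset.card_image_of_injOn hinj, hPc]
    simp [hA]
  have hUP : ∀ u, Unserved T A u → u ∈ P := by
    intro u hu
    have : (Sum.inr ⟨u, mem_uset.2 hu⟩ : A ⊕ uset T A) ∈ P.image f := by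
      rw [himg]; exact Finset.mem_univ _
    obtain ⟨p, hp, hfp⟩ := Finset.mem_image.1 this
    have := hf2 p _ hfp
    simp only at this
    rw [this]; exact hp
  have hAP : ∀ a (ha : a ∈ A), ∃ p ∈ P, f p = Sum.inl ⟨a, ha⟩ := by
    intro a ha
    have : (Sum.inl ⟨a, ha⟩ : A ⊕ uset T A) ∈ P.image f := by
      rw [himg]; exact Finset.mem_univ _
    obtain ⟨p, hp, hfp⟩ := Finset.mem_image.1 this
    exact ⟨p, hp, hfp⟩
  have hnotU : ∀ a ∈ A, ∀ p, T.Adj a p → ¬ Unserved T A p := fun a ha p hap hu =>
    hu a ha hap.symm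
  refine ⟨A, P.filter (fun p => ¬ Unserved T A p), ?_, ?_, ?_, hE⟩
  · intro a ha
    obtain ⟨p, hp, hfp⟩ := hAP a ha
    have hpa : T.Adj p a := hf1 p _ hfp
    refine ⟨p, ⟨Finset.mem_filter.2 ⟨hp, hnotU a ha p hpa.symm⟩, hpa.symm⟩, ?_⟩
    rintro q ⟨hq, haq⟩
    exact hP a q (Finset.mem_filter.1 hq).1 p hp haq hpa.symm
  · intro q hq
    obtain ⟨hqP, hqU⟩ := Finset.mem_filter.1 hq
    have hqU' := hqU
    unfold Unserved at hqU'
    push Not at hqU'
    obtain ⟨a, ha, hqa⟩ := hqU'
    refine ⟨a, ⟨ha, hqa⟩, ?_⟩
    rintro b ⟨hb, hqb⟩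
    obtain ⟨p, hp, hfp⟩ := hAP a ha
    obtain ⟨p', hp', hfp'⟩ := hAP b hb
    have e1 : p = q := hP a p hp q hqP (hf1 p _ hfp).symm hqa.symm
    have e2 : p' = q := hP b p' hp' q hqP (hf1 p' _ hfp').symm hqb.symm
    rw [e1] at hfp
    rw [e2, hfp] at hfp'
    have := Sum.inl.inj hfp'
    simpa using this.symm
  · intro v p p' hvp hvp' hp hp'
    have hp1 : p ∈ P := by
      rcases hp with hp | hp
      · exact (Finset.mem_filter.1 hp).1
      · exact hUP p hp
    have hp2 : p' ∈ P := by
      rcases hp' with hp | hp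
      · exact (Finset.mem_filter.1 hp).1
      · exact hUP p' hp
    exact hP v p hp1 p' hp2 hvp hvp'

/-- The mixing argument: if everything is covered by a set of cost `γ + 1`, then there is a set of
cost `γ` whose uncovered vertices lie on one side of the bipartition. -/
theorem mix (hT : T.IsTree) (h2 : 2 ≤ Fintype.card V) {A : Finset V}
    (hA : A.card + (uset T A).card = totalDominationNumber T + 1)
    (hcov : ∀ v, Covered T A v) :
    ∃ B : Finset V, B.card + (uset T B).card = totalDominationNumber T ∧
      ∀ v w, T.Adj v w → Covered T B v ∨ Covered T B w := by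
  classical
  obtain ⟨S, hS, hSc⟩ := exists_min hT h2
  have hSU : uset T S = ∅ := by
    rw [Finset.eq_empty_iff_forall_notMem]
    intro u hu
    obtain ⟨s, hs, hus⟩ := hS u
    exact mem_uset.1 hu s hs hus
  let b : V → Fin 2 := hT.coloringTwo
  have hb : ∀ v w, T.Adj v w → b v ≠ b w := fun v w h => hT.coloringTwo.valid h
  -- mixed sets
  let M : Fin 2 → Finset V := fun i => S.filter (fun v => b v = i) ∪ A.filter (fun v => b v ≠ i)
  have hM : ∀ i v, v ∈ M i ↔ (b v = i ∧ v ∈ S) ∨ (b v ≠ i ∧ v ∈ A) := by
    intro i v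
    simp only [M, Finset.mem_union, Finset.mem_filter]
    tauto
  -- unserved vertices of the mixed sets
  have hMU : ∀ i u, Unserved T (M i) u ↔ (b u = i ∧ Unserved T A u) := by
    intro i u
    constructor
    · intro h
      by_cases hu : b u = i
      · refine ⟨hu, fun a ha hua => ?_⟩
        refine h a ((hM i a).2 (Or.inr ⟨?_, ha⟩)) hua
        intro h'
        exact hb u a hua (by rw [hu, h'])
      · exfalso
        obtain ⟨s, hs, hus⟩ := hS u
        refine h s ((hM i s).2 (Or.inl ⟨?_, hs⟩)) hus
        have h1 := hb u s hus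
        omega
    · rintro ⟨hu, h⟩ a ha hua
      rcases (hM i a).1 ha with ⟨h1, h2⟩ | ⟨h1, h2⟩
      · exact hb u a hua (by rw [hu, h1])
      · exact h a h2 hua
  have hcost : ∀ i, (M i).card + (uset T (M i)).card =
      (S.filter (fun v => b v = i)).card + (A.filter (fun v => b v ≠ i)).card +
        ((uset T A).filter (fun v => b v = i)).card := by
    intro i
    have e1 : (M i).card = (S.filter (fun v => b v = i)).card +
        (A.filter (fun v => b v ≠ i)).card := by
      refine Finset.card_union_of_disjoint ?_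
      rw [Finset.disjoint_left]
      intro v hv hv'
      exact (Finset.mem_filter.1 hv').2 (Finset.mem_filter.1 hv).2
    have e2 : uset T (M i) = (uset T A).filter (fun v => b v = i) := by
      ext u
      rw [mem_uset, hMU, Finset.mem_filter, mem_uset]
      tauto
    rw [e1, e2]
  have split : ∀ (X : Finset V), X.card = (X.filter (fun v => b v = 0)).card +
      (X.filter (fun v => b v = 1)).card := by
    intro X
    rw [← Finset.card_filter_add_card_filter_not (s := X) (fun v => b v = 0)]
    congr 2
    ext v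
    simp only [Finset.mem_filter, and_congr_right_iff]
    intro _
    omega
  have f0 : A.filter (fun v => b v ≠ 0) = A.filter (fun v => b v = 1) := by
    ext v
    simp only [Finset.mem_filter, and_congr_right_iff]
    intro _
    omega
  have f1 : A.filter (fun v => b v ≠ 1) = A.filter (fun v => b v = 0) := by
    ext v
    simp only [Finset.mem_filter, and_congr_right_iff]
    intro _
    omega
  have hsum : ((M 0).card + (uset T (M 0)).card) + ((M 1).card + (uset T (M 1)).card) =
      2 * totalDominationNumber T + 1 := by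
    rw [hcost 0, hcost 1, f0, f1]
    have s1 := split S
    have s2 := split A
    have s3 := split (uset T A)
    omega
  have g0 := cost_ge hT h2 (M 0)
  have g1 := cost_ge hT h2 (M 1)
  have hex : ∃ i, (M i).card + (uset T (M i)).card = totalDominationNumber T := by
    by_cases h : (M 0).card + (uset T (M 0)).card = totalDominationNumber T
    · exact ⟨0, h⟩
    · exact ⟨1, by omega⟩
  obtain ⟨i, hi⟩ := hex
  refine ⟨M i, hi, ?_⟩
  -- vertices with `b v ≠ i` are covered
  have key : ∀ v, b v ≠ i → Covered T (M i) v := by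
    intro v hv
    rcases hcov v with h | ⟨u, hvu, hu⟩
    · exact Or.inl ((hM i v).2 (Or.inr ⟨hv, h⟩))
    · refine Or.inr ⟨u, hvu, (hMU i u).2 ⟨?_, hu⟩⟩
      have := hb v u hvu
      omega
  intro v w hvw
  by_cases hv : b v = i
  · right
    refine key w ?_
    intro hw
    exact hb v w hvw (by rw [hv, hw])
  · exact Or.inl (key v hv)

theorem good_of_chi (hT : T.IsTree) (h2 : 2 ≤ Fintype.card V)
    (hchi : totalDominatorChromaticNumber T ≤ totalDominationNumber T + 1) :
    ∃ A Q : Finset V, GoodLabelling T A Q := by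
  classical
  have hne : {k | ∃ c : V → Fin k, IsTotalDominatorColouring T c}.Nonempty := by
    -- use the identity colouring
    refine ⟨Fintype.card V, Fintype.equivFin V, ?_, ?_⟩
    · intro v w h h'
      exact h.ne ((Fintype.equivFin V).injective h')
    · intro v
      obtain ⟨w, hw⟩ := exists_nbr hT h2 v
      refine ⟨Fintype.equivFin V w, ⟨w, rfl⟩, fun x hx => ?_⟩
      rw [(Fintype.equivFin V).injective hx]
      exact hw
  obtain ⟨k, hk, c, hc1, hc2⟩ : ∃ k ≤ totalDominationNumber T + 1,
      ∃ c : V → Fin k, IsTotalDominatorColouring T c := ⟨_, hchi, Nat.sInf_mem hne⟩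
  let A : Finset V := Finset.univ.filter (fun a => ∀ w, c w = c a → w = a)
  have hmemA : ∀ a, a ∈ A ↔ ∀ w, c w = c a → w = a := by
    intro a; simp [A]
  choose g hg1 hg2 using hc2
  let f : A ⊕ uset T A → Fin k := fun i => match i with
    | Sum.inl a => c a
    | Sum.inr u => g u
  have hnot : ∀ (a : V), a ∈ A → ∀ u, Unserved T A u → g u ≠ c a := by
    intro a ha u hu h
    exact hu a ha (hg2 u a h.symm)
  have hinj : Function.Injective f := by
    rintro (a | u) (a' | u') h
    · have h' : c a = c a' := h
      have := (hmemA a').1 a'.2 a h'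
      exact congrArg _ (Subtype.ext this)
    · exact absurd (show g u' = c a from h.symm) (hnot a a.2 u' (mem_uset.1 u'.2))
    · exact absurd (show g u = c a' from h) (hnot a' a'.2 u (mem_uset.1 u.2))
    · have h' : g u = g u' := h
      by_contra hne
      have hne' : (u : V) ≠ u' := fun h => hne (congrArg _ (Subtype.ext h))
      obtain ⟨w, hw⟩ := hg1 u
      have hw1 : T.Adj u w := hg2 u w hw
      have hwA : w ∈ A := by
        rw [hmemA]
        intro x hx
        have hx1 : T.Adj u x := hg2 u x (by rw [hx, hw])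
        have hx2 : T.Adj u' x := hg2 u' x (by rw [hx, hw, h'])
        have hw2 : T.Adj u' w := hg2 u' w (by rw [hw, h'])
        exact common_unique hT hne' hx1 hw1 hx2 hw2
      exact mem_uset.1 u.2 w hwA hw1
  have hcardf : A.card + (uset T A).card ≤ k := by
    have := Fintype.card_le_of_injective f hinj
    simpa using this
  have hge := cost_ge hT h2 A
  -- uncovered vertices have colours outside the range of f
  have hrange : ∀ v, ¬ Covered T A v → c v ∉ Finset.univ.image f := by
    intro v hv hmem
    obtain ⟨i, -, hi⟩ := Finset.mem_image.1 hmem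
    rcases i with a | u
    · have hi' : c a = c v := hi
      have := (hmemA a).1 a.2 v hi'.symm
      exact hv (Or.inl (this ▸ a.2))
    · have hi' : g u = c v := hi
      exact hv (Or.inr ⟨u, (hg2 u v hi'.symm).symm, mem_uset.1 u.2⟩)
  have hcardim : (Finset.univ.image f).card = A.card + (uset T A).card := by
    rw [Finset.card_image_of_injective _ hinj]
    simp
  by_cases hcase : A.card + (uset T A).card = totalDominationNumber T
  · refine good_of_cost hT h2 hcase ?_
    intro v w hvw
    by_contra hcon
    rw [not_or] at hcon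
    have r1 := hrange v hcon.1
    have r2 := hrange w hcon.2
    have hne : c v ≠ c w := hc1 v w hvw
    have hsub : (insert (c v) (insert (c w) (Finset.univ.image f))).card ≤ k := by
      have := Finset.card_le_univ (insert (c v) (insert (c w) (Finset.univ.image f)))
      simpa using this
    rw [Finset.card_insert_of_notMem, Finset.card_insert_of_notMem r2, hcardim] at hsub
    · omega
    · rw [Finset.mem_insert, not_or]
      exact ⟨hne, r1⟩
  · have hcost : A.card + (uset T A).card = totalDominationNumber T + 1 := by omega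
    have hcov : ∀ v, Covered T A v := by
      intro v
      by_contra hv
      have r1 := hrange v hv
      have hsub : (insert (c v) (Finset.univ.image f)).card ≤ k := by
        have := Finset.card_le_univ (insert (c v) (Finset.univ.image f))
        simpa using this
      rw [Finset.card_insert_of_notMem r1, hcardim] at hsub
      omega
    obtain ⟨B, hB, hE⟩ := mix hT h2 hcost hcov
    exact good_of_cost hT h2 hB hE

/-- The characterisation. -/
theorem main (hT : T.IsTree) (h2 : 2 ≤ Fintype.card V) :
    totalDominatorChromaticNumber T = totalDominationNumber T + 2 ↔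
      ¬ ∃ A Q : Finset V, GoodLabelling T A Q := by
  constructor
  · rintro h ⟨A, Q, hg⟩
    have := good_chi hT h2 hg
    omega
  · intro h
    have h1 := chi_le_add_two hT h2
    by_contra hne
    exact h (good_of_chi hT h2 (by omega))

end Helper29TD
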