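import Pool.Agent.Lib_helper29.TD.Defs

namespace Helper29TD

open SimpleGraph

variable {V : Type*} {T : SimpleGraph V}

/-- In a tree the neighbour closer to the root is unique. -/
theorem parent_unique (hT : T.IsTree) (r v x y : V) (hx : T.Adj v x) (hy : T.Adj v y)
    (dx : T.dist r v = T.dist r x + 1) (dy : T.dist r v = T.dist r y + 1) : x = y := by
  obtain ⟨p, hp, hpl⟩ := (hT.connected r v).exists_path_of_dist
  have key : ∀ z, T.Adj v z → T.dist r v = T.dist r z + 1 → z = p.penultimate := by
    intro z hz dz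
    obtain ⟨q, hq, hql⟩ := (hT.connected r z).exists_path_of_dist
    have hv : v ∉ q.support := by
      intro hv
      classical
      have h1 := q.length_takeUntil_le_length hv
      have h2 := dist_le (q.takeUntil v hv)
      omega
    have := hT.isAcyclic.mem_support_of_ne_mem_support_of_adj_of_isPath hp hq hz hv
    exact hT.isAcyclic.eq_penultimate_of_adj_end hp hz this
  rw [key x hx dx, key y hy dy]

theorem no_triangle (hT : T.IsTree) {u v w : V} (h1 : T.Adj u v) (h2 : T.Adj u w) :
    ¬ T.Adj v w := by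
  intro h
  have h3 := hT.dist_ne_of_adj u h
  rw [dist_eq_one_iff_adj.2 h1, dist_eq_one_iff_adj.2 h2] at h3
  exact h3 rfl

/-- Two distinct vertices of a tree have at most one common neighbour. -/
theorem common_unique (hT : T.IsTree) {x y v w : V} (hxy : x ≠ y) (h1 : T.Adj x v)
    (h2 : T.Adj x w) (h3 : T.Adj y v) (h4 : T.Adj y w) : v = w := by
  have d1 : T.dist x v = 1 := dist_eq_one_iff_adj.2 h1
  have d2 : T.dist x w = 1 := dist_eq_one_iff_adj.2 h2
  have d3 := hT.dist_eq_dist_add_one_of_adj x h3
  have d4 : T.dist x y ≠ 0 := by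
    intro h
    exact hxy ((hT.connected.dist_eq_zero_iff).1 h)
  refine parent_unique hT x y v w h3 h4 ?_ ?_
  · omega
  · have := hT.dist_eq_dist_add_one_of_adj x h4
    omega

theorem exists_nbr [Fintype V] (hT : T.IsTree) (h2 : 2 ≤ Fintype.card V) (v : V) :
    ∃ w, T.Adj v w := by
  have : Nontrivial V := Fintype.one_lt_card_iff_nontrivial.1 (by omega)
  obtain ⟨w, hw⟩ := exists_ne v
  obtain ⟨p⟩ := hT.connected v w
  cases p with
  | nil => exact absurd rfl hw
  | cons h _ => exact ⟨_, h⟩

/-- open packing -/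
def IsPacking (G : SimpleGraph V) (P : Finset V) : Prop :=
  ∀ v, ∀ p ∈ P, ∀ p' ∈ P, G.Adj v p → G.Adj v p' → p = p'

theorem greedy [Fintype V] [DecidableEq V] (hT : T.IsTree) (h2 : 2 ≤ Fintype.card V) (r : V) :
    ∀ n, ∀ Y : Finset V, Y.card = n → ∃ S P : Finset V,
      (∀ y ∈ Y, ∃ s ∈ S, T.Adj y s) ∧ P ⊆ Y ∧ IsPacking T P ∧ S.card ≤ P.card := by
  classical
  intro n
  induction n using Nat.strong_induction_on with
  | _ n ih =>
  intro Y hY
  rcases Y.eq_empty_or_nonempty with rfl | hne
  · exact ⟨∅, ∅, by simp, by simp, by simp [IsPacking], le_rfl⟩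
  obtain ⟨y, hy, hmax⟩ := Y.exists_max_image (fun y => T.dist r y) hne
  obtain ⟨x, hyx, hx⟩ : ∃ x, T.Adj y x ∧ (y ≠ r → T.dist r y = T.dist r x + 1) := by
    by_cases hyr : y = r
    · obtain ⟨x, hx⟩ := exists_nbr hT h2 y
      exact ⟨x, hx, fun h => absurd hyr h⟩
    · obtain ⟨p, hp, hpl⟩ := (hT.connected r y).exists_path_of_dist
      have hnil : ¬ p.Nil := fun h => hyr h.eq.symm
      refine ⟨p.penultimate, (p.adj_penultimate hnil).symm, fun _ => ?_⟩
      have h3 := hT.dist_eq_dist_add_one_of_adj r (p.adj_penultimate hnil)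
      have h4 := dist_le (p.dropLast)
      have h5 : p.dropLast.length + 1 = p.length := by
        have h6 : p.length ≠ 0 := fun h => hnil (Walk.length_eq_zero_iff.1 h)
        rw [Walk.length_dropLast]
        omega
      have h7 : T.dist r p.penultimate ≤ p.dropLast.length := dist_le _
      omega
  set Y' := Y.filter (fun z => ¬ T.Adj z x) with hY'
  have hyY' : y ∉ Y' := by
    simp [hY', hyx]
  have hlt : Y'.card < n := by
    rw [← hY]
    refine Finset.card_lt_card ⟨Finset.filter_subset _ _, fun h => hyY' (h hy)⟩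
  obtain ⟨S, P, h1, hP, hpack, hcard⟩ := ih _ hlt Y' rfl
  have hyP : y ∉ P := fun h => hyY' (hP h)
  have cross : ∀ v, ∀ p ∈ P, T.Adj v y → T.Adj v p → False := by
    intro v p hp hvy hvp
    have hpY' := hP hp
    rw [hY', Finset.mem_filter] at hpY'
    have hvx : v ≠ x := by
      rintro rfl
      exact hpY'.2 hvp.symm
    have hpm := hmax p hpY'.1
    by_cases hyr : y = r
    · have : T.dist r p = 0 := by
        rw [hyr, dist_self] at hpm
        omega
      have hpr : r = p := (hT.connected.dist_eq_zero_iff).1 this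
      exact hyP (by rw [hyr, hpr]; exact hp)
    · have hx' := hx hyr
      have d1 := hT.dist_eq_dist_add_one_of_adj r hvy
      have d2 : T.dist r v = T.dist r y + 1 := by
        rcases d1 with d1 | d1
        · exact d1
        · exact absurd (parent_unique hT r y v x hvy.symm hyx d1 hx') hvx
      have d3 := hT.dist_eq_dist_add_one_of_adj r hvp
      rcases d3 with d3 | d3
      · have := parent_unique hT r v y p hvy hvp d2 d3
        exact hyP (this ▸ hp)
      · omega
  refine ⟨insert x S, insert y P, ?_, ?_, ?_, ?_⟩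
  · intro z hz
    by_cases hzx : T.Adj z x
    · exact ⟨x, Finset.mem_insert_self _ _, hzx⟩
    · obtain ⟨s, hs, hs'⟩ := h1 z (by simp [hY', hz, hzx])
      exact ⟨s, Finset.mem_insert_of_mem hs, hs'⟩
  · intro z hz
    rcases Finset.mem_insert.1 hz with rfl | hz
    · exact hy
    · exact (Finset.filter_subset _ _) (hP hz)
  · intro v p hp p' hp' hvp hvp'
    rw [Finset.mem_insert] at hp hp'
    rcases hp with hp | hp
    · rcases hp' with hp' | hp'
      · rw [hp, hp']
      · exact (cross v p' hp' (hp ▸ hvp) hvp').elim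
    · rcases hp' with hp' | hp'
      · exact (cross v p hp (hp' ▸ hvp') hvp).elim
      · exact hpack v p hp p' hp' hvp hvp'
  · rw [Finset.card_insert_of_notMem hyP]
    exact (Finset.card_insert_le _ _).trans (by omega)

end Helper29TD
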